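import Pool.Agent.Helper7.CP.Windows

/-!
# Asymptotics
-/

namespace CP
open Finset Real

/-- lower bound for the number of primes `p ≤ y < p²` -/
theorem PP_card {y : ℕ} {l : ℝ} (hl : 1000 ≤ l) (hyl : Real.log y ≤ l) (hy1 : Real.log (y + 1) ≤ l + 1)
    (hy : 10 ^ 5 * l ^ 4 ≤ y) : (y : ℝ) / (2 * l) ≤ (PP y).card := by
  classical
  have hl0 : (0:ℝ) < l := by linarith
  have hy0 : (0:ℝ) < y := lt_of_lt_of_le (by positivity) hy
  have h1 : Nat.primeCounting y ≤ (PP y).card + Nat.sqrt y := by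
    have h2 : Nat.primeCounting y = ((range (y + 1)).filter Nat.Prime).card := by
      rw [Nat.primeCounting, Nat.primeCounting', Nat.count_eq_card_filter_range]
    have h3 : (range (y + 1)).filter Nat.Prime ⊆ PP y ∪ (range (Nat.sqrt y + 1)).erase 0 := by
      intro p hp
      rw [mem_filter, mem_range] at hp
      rw [mem_union, PP, mem_filter, mem_erase, mem_range, mem_range]
      by_cases h : y < p ^ 2
      · exact Or.inl ⟨hp.1, hp.2, h⟩
      · right
        refine ⟨hp.2.pos.ne', ?_⟩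
        have : p ≤ Nat.sqrt y := by rw [Nat.le_sqrt']; omega
        omega
    rw [h2]
    refine (card_le_card h3).trans ((card_union_le _ _).trans ?_)
    rw [card_erase_of_mem (by simp), card_range]
    simp
  have h2 := Chebyshev.pi_ge y
  have hlogy : 0 < Real.log y := by
    apply Real.log_pos
    have : (1:ℝ) < 10 ^ 5 * l ^ 4 := by
      have : (1:ℝ) ≤ l ^ 4 := one_le_pow₀ (by linarith)
      linarith
    linarith
  have hlog2 := Real.log_two_gt_d9
  have h3 : ((y : ℝ) * 0.69 - (l + 1)) / l ≤ (y * Real.log 2 - Real.log (y + 1)) / Real.log y := by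
    have hnum : (y : ℝ) * 0.69 - (l + 1) ≤ y * Real.log 2 - Real.log (y + 1) := by nlinarith
    have hpos : 0 ≤ (y : ℝ) * 0.69 - (l + 1) := by
      have : l ≤ l ^ 4 := by
        have : (1:ℝ) ≤ l ^ 3 := one_le_pow₀ (by linarith)
        nlinarith
      nlinarith
    exact div_le_div₀ (hpos.trans hnum) hnum hlogy hyl
  have h4 : ((Nat.sqrt y : ℕ) : ℝ) ≤ √(y : ℝ) := Real.nat_sqrt_le_real_sqrt
  have h5 : (Nat.primeCounting y : ℝ) ≤ (PP y).card + (Nat.sqrt y : ℕ) := by exact_mod_cast h1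
  have h6 : 300 * l ^ 2 ≤ √(y : ℝ) := by
    apply Real.le_sqrt_of_sq_le
    nlinarith [pow_pos hl0 4]
  have h7 : √(y : ℝ) * √(y : ℝ) = y := Real.mul_self_sqrt hy0.le
  have h8 : (y : ℝ) / (2 * l) + √(y : ℝ) ≤ ((y : ℝ) * 0.69 - (l + 1)) / l := by
    have e : (y : ℝ) / (2 * l) = (y / 2) / l := by field_simp
    rw [e, ← sub_nonneg]
    have e2 : ((y : ℝ) * 0.69 - (l + 1)) / l - (y / 2 / l + √(y : ℝ)) =
        ((y : ℝ) * 0.19 - (l + 1) - √(y : ℝ) * l) / l := by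
      field_simp
      ring
    rw [e2]
    apply div_nonneg _ hl0.le
    have hs : 0 ≤ √(y : ℝ) := Real.sqrt_nonneg _
    have h9 : 2 * l ≤ 0.19 * √(y : ℝ) := by nlinarith
    have h10 : √(y : ℝ) * (2 * l) ≤ √(y : ℝ) * (0.19 * √(y : ℝ)) := mul_le_mul_of_nonneg_left h9 hs
    have h11 : l + 1 ≤ √(y : ℝ) * l := by nlinarith
    nlinarith
  linarith

/-- number of primes below `4^y` -/
theorem count_ge {y : ℕ} (hy : 4 ≤ y) : (4 : ℝ) ^ y / (3 * y) ≤ Nat.count Nat.Prime (4 ^ y) := by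
  have h4 : 4 ^ 4 ≤ 4 ^ y := Nat.pow_le_pow_right (by norm_num) hy
  have hy0 : (0:ℝ) < y := by exact_mod_cast (by omega : 0 < y)
  have h1 := Chebyshev.pi_ge (4 ^ y - 1)
  have e1 : Nat.primeCounting (4 ^ y - 1) = Nat.count Nat.Prime (4 ^ y) := by
    rw [Nat.primeCounting, Nat.primeCounting', Nat.sub_add_cancel (by omega)]
  rw [e1] at h1
  refine le_trans ?_ h1
  have e2 : ((4 ^ y - 1 : ℕ) : ℝ) = (4:ℝ) ^ y - 1 := by
    rw [Nat.cast_sub (by omega)]; push_cast; ring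
  rw [e2, sub_add_cancel, Real.log_pow]
  have hx : (256:ℝ) ≤ 4 ^ y := by exact_mod_cast (by norm_num at h4 ⊢; exact h4 : 256 ≤ 4 ^ y)
  have hlog2 : 0 < Real.log 2 := Real.log_pos (by norm_num)
  have hlog4 : Real.log 4 = 2 * Real.log 2 := by
    rw [show (4:ℝ) = 2 ^ 2 by norm_num, Real.log_pow]; norm_num
  have hlt : Real.log ((4:ℝ) ^ y - 1) ≤ y * Real.log 4 := by
    rw [← Real.log_pow]
    exact Real.log_le_log (by linarith) (by linarith)
  have hl0 : 0 < Real.log ((4:ℝ) ^ y - 1) := Real.log_pos (by linarith)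
  have hyx : (y : ℝ) ≤ 4 ^ y / 32 := by
    have : ∀ n : ℕ, 4 ≤ n → 32 * n ≤ 4 ^ n := by
      intro n hn
      induction n, hn using Nat.le_induction with
      | base => norm_num
      | succ n hn ih => rw [pow_succ]; omega
    have := this y hy
    rw [le_div_iff₀ (by norm_num)]
    have h : ((32 * y : ℕ) : ℝ) ≤ ((4 ^ y : ℕ) : ℝ) := by exact_mod_cast this
    push_cast at h
    linarith
  have hnum : 0 ≤ ((4:ℝ) ^ y - 1) * Real.log 2 - y * Real.log 4 := by
    rw [hlog4]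
    nlinarith
  calc (4 : ℝ) ^ y / (3 * y) ≤ (((4:ℝ) ^ y - 1) * Real.log 2 - y * Real.log 4) / (y * Real.log 4) := by
        rw [hlog4, div_le_div_iff₀ (by positivity) (by positivity)]
        have : (4:ℝ) ^ y * (y * (2 * Real.log 2)) ≤ (((4:ℝ) ^ y - 1) - 2 * y) * Real.log 2 * (3 * y) := by
          have h2 : 0 < y * Real.log 2 := by positivity
          nlinarith
        linarith
    _ ≤ _ := div_le_div_of_nonneg_left hnum hl0 hlt

theorem lin_le_four_pow {y : ℕ} (hy : 10 ≤ y) : 12 * y ^ 2 ≤ 4 ^ y := by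
  induction y, hy using Nat.le_induction with
  | base => norm_num
  | succ n hn ih =>
    rw [pow_succ 4 n]
    nlinarith

theorem good_ge {y k L : ℕ} (hy : 4 ≤ y) (hk0 : 0 < k) (hky : k ≤ y) (h4y : 12 * y ^ 2 ≤ 4 ^ y)
    (h12 : 12 * k * y ≤ L) :
    k ≤ Nat.count Nat.Prime (4 ^ y) ∧
    (4:ℝ) ^ y / (6 * y) ≤ (good (Nat.count Nat.Prime (4 ^ y) - k) k L).card := by
  have hy0 : (0:ℝ) < y := by exact_mod_cast (by omega : 0 < y)
  have h4 : (0:ℝ) < 4 ^ y := by positivity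
  have h4y' : (12 : ℝ) * y ^ 2 ≤ 4 ^ y := by exact_mod_cast h4y
  have h12' : (12 : ℝ) * k * y ≤ L := by exact_mod_cast h12
  have hk0' : (0:ℝ) < k := by exact_mod_cast hk0
  have hk4 : (k : ℝ) ≤ 4 ^ y / (12 * y) := by
    rw [le_div_iff₀ (by positivity)]
    have : (k : ℝ) ≤ y := by exact_mod_cast hky
    nlinarith
  have hcount := count_ge (y := y) (by omega)
  obtain ⟨c, hc⟩ : ∃ c, c = Nat.count Nat.Prime (4 ^ y) := ⟨_, rfl⟩
  rw [← hc] at hcount ⊢
  have hkc : k ≤ c := by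
    have h1 : (k : ℝ) ≤ c := by
      refine hk4.trans (le_trans ?_ hcount)
      exact div_le_div_of_nonneg_left (by positivity) (by positivity) (by linarith)
    exact_mod_cast h1
  refine ⟨hkc, ?_⟩
  have hMk : (c - k) + k ≤ Nat.count Nat.Prime (4 ^ y) := by omega
  have hgood := good_card (L := L) hMk
  have hgM : (good (c - k) k L).card ≤ c - k := by
    have := card_filter_le (range (c - k)) (fun m => pr (m + k) - pr m ≤ L)
    rw [card_range] at this
    exact this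
  obtain ⟨g, hg⟩ : ∃ g, g = (good (c - k) k L).card := ⟨_, rfl⟩
  rw [← hg] at hgood hgM ⊢
  have h1 : (((c - k) - g : ℕ) : ℝ) * L ≤ k * 4 ^ y := by exact_mod_cast hgood
  rw [Nat.cast_sub hgM, Nat.cast_sub hkc] at h1
  have hneg : (0:ℝ) ≤ (c : ℝ) - k - g := by
    have : ((g : ℕ) : ℝ) ≤ ((c - k : ℕ) : ℝ) := by exact_mod_cast hgM
    rw [Nat.cast_sub hkc] at this
    linarith
  have h2 : ((c : ℝ) - k - g) ≤ 4 ^ y / (12 * y) := by
    rw [le_div_iff₀ (by positivity)]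
    have h5 : ((c : ℝ) - k - g) * (12 * k * y) ≤ k * 4 ^ y :=
      (mul_le_mul_of_nonneg_left h12' hneg).trans h1
    have h6 : k * (((c : ℝ) - k - g) * (12 * y)) ≤ k * 4 ^ y := by linarith
    exact le_of_mul_le_mul_left h6 hk0'
  have h3 : (4:ℝ) ^ y / (3 * y) = 4 ^ y / (12 * y) + 4 ^ y / (12 * y) + 4 ^ y / (6 * y) := by
    field_simp
    norm_num
  linarith

theorem four_pow_eq (y : ℕ) : (4:ℝ) ^ y = Real.exp (y * Real.log 4) := by
  rw [mul_comm, Real.exp_mul, Real.exp_log (by norm_num), Real.rpow_natCast]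

theorem two_pow_eq (y : ℕ) : (2:ℝ) ^ y = Real.exp (y * Real.log 2) := by
  rw [mul_comm, Real.exp_mul, Real.exp_log (by norm_num), Real.rpow_natCast]

theorem pow_eq (y : ℕ) {a : ℝ} (ha : 0 < a) : a ^ y = Real.exp (y * Real.log a) := by
  rw [mul_comm, Real.exp_mul, Real.exp_log ha, Real.rpow_natCast]

theorem yE {y : ℕ} {K R : ℝ} (hy : (1000:ℝ) ≤ y) (hK : K ≤ y) (hR0 : 0 ≤ R) (hR : R ≤ 2 * y) :
    (y : ℝ) + 1 ≤ 4 ^ y * Real.exp (-(K * R / (14 * y))) := by
  have hy0 : (0:ℝ) < y := by linarith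
  have h1 : K * R / (14 * y) ≤ y / 7 := by
    rw [div_le_iff₀ (by positivity)]
    have : K * R ≤ y * (2 * y) := mul_le_mul hK hR hR0 hy0.le
    linarith
  have hlog4 : 1 ≤ Real.log 4 := by
    rw [show (4:ℝ) = 2 ^ 2 by norm_num, Real.log_pow]
    have := Real.log_two_gt_d9
    push_cast
    linarith
  rw [four_pow_eq, ← Real.exp_add]
  have h5 : (y : ℝ) * (6 / 7) ≤ y * Real.log 4 + -(K * R / (14 * y)) := by
    have := mul_le_mul_of_nonneg_left hlog4 hy0.le
    linarith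
  refine le_trans ?_ (Real.exp_le_exp.2 h5)
  have h6 := Real.quadratic_le_exp_of_nonneg (x := (y : ℝ) * (6 / 7)) (by positivity)
  nlinarith

theorem small_ineq {y k L : ℕ} {u l : ℝ} (hl : 1000 ≤ l) (hul : (10:ℝ) ^ 9 ≤ u)
    (hlogL1 : Real.log (L + 1) ≤ l + 1) (hLexp : (L : ℝ) = Real.exp l) (yL : (y : ℝ) ≤ L)
    (hk : (k : ℝ) ≤ u / 14) (y2 : u * l - 1 < y) :
    ((2 ^ y : ℕ) : ℝ) * ((L : ℝ) + 1) ^ (k + 1) * (12 * y) ≤ 4 ^ y := by
  have hlog2 := Real.log_two_gt_d9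
  have hu0 : 0 < u := by linarith
  have hy0 : (0:ℝ) < y := by nlinarith
  have e3 : (12 : ℝ) * y ≤ Real.exp (l + 3) := by
    have h1 : Real.exp (l + 3) = L * Real.exp 3 := by rw [Real.exp_add, hLexp]
    have h2 : (12 : ℝ) ≤ Real.exp 3 := by
      have h3 : Real.exp 3 = Real.exp 1 ^ 3 := by rw [← Real.exp_nat_mul]; norm_num
      have h4 := Real.exp_one_gt_d9
      rw [h3]
      calc (12:ℝ) ≤ 2.7 ^ 3 := by norm_num
        _ ≤ Real.exp 1 ^ 3 := pow_le_pow_left₀ (by norm_num) (by linarith) 3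
    rw [h1]
    nlinarith
  have e4 : (4:ℝ) ^ y = 2 ^ y * 2 ^ y := by rw [← mul_pow]; norm_num
  push_cast
  rw [e4, mul_assoc]
  refine mul_le_mul_of_nonneg_left ?_ (by positivity)
  rw [two_pow_eq, pow_eq (k + 1) (a := (L : ℝ) + 1) (by positivity)]
  refine (mul_le_mul_of_nonneg_left e3 (Real.exp_pos _).le).trans ?_
  rw [← Real.exp_add]
  refine Real.exp_le_exp.2 ?_
  have h5 : ((k + 1 : ℕ) : ℝ) * Real.log (L + 1) ≤ (u / 14 + 1) * (l + 1) := by
    refine mul_le_mul (by push_cast; linarith) hlogL1 (Real.log_nonneg ?_) (by positivity)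
    have : (0:ℝ) ≤ L := by positivity
    linarith
  have h6 : (u * l - 1) * 0.69 ≤ y * Real.log 2 :=
    mul_le_mul y2.le (by linarith) (by norm_num) hy0.le
  have h7 : (u / 14 + 1) * (l + 1) + (l + 3) ≤ (u * l - 1) * 0.69 := by nlinarith
  linarith

theorem final_ineq {y k L : ℕ} {u l R t : ℝ} (hl : 1000 ≤ l) (hu : 10 ^ 6 * l ^ 3 ≤ u)
    (hLexp : (L : ℝ) = Real.exp l) (yL : (y : ℝ) ≤ L) (hy0 : (0:ℝ) < y)
    (hk : u / 14 - 1 < (k : ℝ)) (hR : (y : ℝ) / (2 * l) ≤ R)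
    (h1 : (4:ℝ) ^ y / (12 * y) ≤ t * (3 * 4 ^ y * Real.exp (-(((k + 1 : ℕ) : ℝ) * R / (14 * y))))) :
    Real.exp (u / (400 * l)) ≤ t := by
  have hl0 : (0:ℝ) < l := by linarith
  have hu0 : (0:ℝ) < u := lt_of_lt_of_le (by positivity) hu
  obtain ⟨E, hE⟩ : ∃ E, E = Real.exp (-(((k + 1 : ℕ) : ℝ) * R / (14 * y))) := ⟨_, rfl⟩
  rw [← hE] at h1
  have hE0 : 0 < E := by rw [hE]; exact Real.exp_pos _
  have h2 : 1 / (36 * y * E) ≤ t := by
    rw [div_le_iff₀ (by positivity)]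
    rw [div_le_iff₀ (by positivity)] at h1
    have h4 : (0:ℝ) < 4 ^ y := by positivity
    have h5 : (4:ℝ) ^ y * 1 ≤ 4 ^ y * (t * (36 * y * E)) := by
      calc (4:ℝ) ^ y * 1 = 4 ^ y := mul_one _
        _ ≤ _ := h1
        _ = _ := by ring
    exact le_of_mul_le_mul_left h5 h4
  refine le_trans ?_ h2
  rw [le_div_iff₀ (by positivity)]
  have h3 : (36 : ℝ) * y ≤ Real.exp (l + 4) := by
    have h1 : Real.exp (l + 4) = L * Real.exp 4 := by rw [Real.exp_add, hLexp]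
    have h2 : (36 : ℝ) ≤ Real.exp 4 := by
      have h3 : Real.exp 4 = Real.exp 1 ^ 4 := by rw [← Real.exp_nat_mul]; norm_num
      have h4 := Real.exp_one_gt_d9
      rw [h3]
      calc (36:ℝ) ≤ 2.7 ^ 4 := by norm_num
        _ ≤ Real.exp 1 ^ 4 := pow_le_pow_left₀ (by norm_num) (by linarith) 4
    rw [h1]
    nlinarith
  have h4 : u / (392 * l) ≤ ((k + 1 : ℕ) : ℝ) * R / (14 * y) := by
    rw [div_le_div_iff₀ (by positivity) (by positivity)]
    have h5 : u / 14 ≤ ((k + 1 : ℕ) : ℝ) := by push_cast; linarith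
    have h6 : (y : ℝ) ≤ R * (2 * l) := by
      rw [div_le_iff₀ (by positivity)] at hR
      exact hR
    have h7 : (u / 14) * y ≤ ((k + 1 : ℕ) : ℝ) * (R * (2 * l)) :=
      mul_le_mul h5 h6 hy0.le (by positivity)
    linarith
  have h5 : u / (400 * l) + (l + 4) ≤ u / (392 * l) := by
    have h6 : u / (392 * l) - u / (400 * l) = u / (19600 * l) := by
      field_simp
      norm_num
    have h7 : l + 4 ≤ u / (19600 * l) := by
      rw [le_div_iff₀ (by positivity)]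
      have h8 : 1000 * l ^ 2 ≤ l ^ 3 := by nlinarith [sq_nonneg l]
      nlinarith
    linarith
  calc Real.exp (u / (400 * l)) * (36 * y * E)
      ≤ Real.exp (u / (400 * l)) * (Real.exp (l + 4) * E) := by
        refine mul_le_mul_of_nonneg_left ?_ (Real.exp_pos _).le
        exact mul_le_mul_of_nonneg_right h3 hE0.le
    _ = Real.exp (u / (400 * l) + (l + 4) - ((k + 1 : ℕ) : ℝ) * R / (14 * y)) := by
        rw [hE, ← Real.exp_add, ← Real.exp_add]
        congr 1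
        ring
    _ ≤ Real.exp 0 := Real.exp_le_exp.2 (by linarith)
    _ = 1 := Real.exp_zero

/-- the deterministic statement in the parameters `u`, `l` -/
theorem core {L : ℕ} {u l : ℝ} (hl : 1000 ≤ l) (hu : 10 ^ 6 * l ^ 3 ≤ u) (hL : (L : ℝ) = u ^ 2 * l)
    (hlog : Real.log L = l) :
    ∃ T : Finset (Finset ℕ), Real.exp (u / (400 * l)) ≤ T.card ∧
      ∀ H ∈ T, 0 ∈ H ∧ (∀ h ∈ H, h ≤ L) ∧ H.card = ⌊u / 14⌋₊ + 1 ∧
        (∀ p : ℕ, p.Prime → ∃ r : ℕ, r < p ∧ ∀ h ∈ H, h % p ≠ r) ∧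
        ∃ S : Finset ℕ, Real.exp (u * l / 2) ≤ S.card ∧ ∀ n ∈ S, Realises n H := by
  have hl0 : (0:ℝ) < l := by linarith
  have hl3 : (1000:ℝ) ^ 3 ≤ l ^ 3 := pow_le_pow_left₀ (by norm_num) hl 3
  have hul : (10:ℝ) ^ 9 ≤ u := by nlinarith
  have hu0 : (0:ℝ) < u := by linarith
  obtain ⟨y, hy⟩ : ∃ y, y = ⌊u * l⌋₊ := ⟨_, rfl⟩
  obtain ⟨k, hk⟩ : ∃ k, k = ⌊u / 14⌋₊ := ⟨_, rfl⟩
  have y1 : (y : ℝ) ≤ u * l := by rw [hy]; exact Nat.floor_le (by positivity)
  have y2 : u * l - 1 < y := by rw [hy]; exact Nat.sub_one_lt_floor _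
  have k1 : (k : ℝ) ≤ u / 14 := by rw [hk]; exact Nat.floor_le (by positivity)
  have k2 : u / 14 - 1 < k := by rw [hk]; exact Nat.sub_one_lt_floor _
  have hull : 10 ^ 12 ≤ u * l := by
    calc (10:ℝ) ^ 12 = 10 ^ 9 * 1000 := by norm_num
      _ ≤ u * l := mul_le_mul hul hl (by norm_num) hu0.le
  have y3 : 0.999 * (u * l) ≤ y := by linarith
  have hy0 : (0:ℝ) < y := by linarith
  have yL : (y : ℝ) ≤ L := by
    rw [hL]
    have : u * l ≤ u * (u * l) := le_mul_of_one_le_left (by positivity) (by linarith)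
    nlinarith
  have hL0 : (0:ℝ) < L := by linarith
  have hLexp : (L : ℝ) = Real.exp l := by rw [← hlog, Real.exp_log hL0]
  have hyN' : (1000:ℝ) ≤ y := by linarith
  have hyN : 1000 ≤ y := by exact_mod_cast hyN'
  have hlogy : Real.log y ≤ l := by
    rw [← hlog]; exact Real.log_le_log hy0 yL
  have hlogL1 : Real.log (L + 1) ≤ l + 1 := by
    have h1 : (L : ℝ) + 1 ≤ L * Real.exp 1 := by
      have := Real.exp_one_gt_d9
      nlinarith
    calc Real.log (L + 1) ≤ Real.log (L * Real.exp 1) := Real.log_le_log (by positivity) h1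
      _ = l + 1 := by rw [Real.log_mul hL0.ne' (Real.exp_pos _).ne', hlog, Real.log_exp]
  have hlogy1 : Real.log (y + 1) ≤ l + 1 :=
    (Real.log_le_log (by positivity) (by linarith)).trans hlogL1
  have hy4 : 10 ^ 5 * l ^ 4 ≤ y := by
    have h1 : (10 ^ 6 * l ^ 3) * l ≤ u * l := mul_le_mul_of_nonneg_right hu hl0.le
    have h2 : (0:ℝ) ≤ l ^ 4 := by positivity
    have h3 : (10 ^ 6 * l ^ 3) * l = 10 ^ 6 * l ^ 4 := by ring
    linarith
  have hR := PP_card hl hlogy hlogy1 hy4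
  have hR2 : u / 2 - 1 ≤ ((PP y).card : ℝ) := by
    refine le_trans ?_ hR
    rw [le_div_iff₀ (by positivity)]
    nlinarith
  have hRy : ((PP y).card : ℝ) ≤ 2 * y := by
    have h1 := card_filter_le (range (y + 1)) (fun p => p.Prime ∧ y < p ^ 2)
    rw [card_range] at h1
    have h2 : ((PP y).card : ℝ) ≤ ((y + 1 : ℕ) : ℝ) := by exact_mod_cast h1
    push_cast at h2
    linarith
  have hKR : k + 1 ≤ (PP y).card := by
    have : ((k + 1 : ℕ) : ℝ) ≤ (PP y).card := by push_cast; linarith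
    exact_mod_cast this
  have hk0 : 0 < k := by
    have : (0:ℝ) < k := by linarith
    exact_mod_cast this
  have hky1 : ((k + 1 : ℕ) : ℝ) ≤ y := by
    push_cast
    have : u ≤ u * l := le_mul_of_one_le_right hu0.le (by linarith)
    linarith
  have hky1' : k + 1 ≤ y := by exact_mod_cast hky1
  have hLy : L ≤ y ^ 2 := by
    have : (L : ℝ) ≤ (y : ℝ) ^ 2 := by
      rw [hL]
      have h1 : (0.999 * (u * l)) ^ 2 ≤ (y : ℝ) ^ 2 := pow_le_pow_left₀ (by positivity) y3 2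
      have h2 : u ^ 2 * l ≤ (0.999 * (u * l)) ^ 2 := by
        have h3 : (0.999 * (u * l)) ^ 2 = (u ^ 2 * l) * (0.999 ^ 2 * l) := by ring
        rw [h3]
        exact le_mul_of_one_le_right (by positivity) (by linarith)
      linarith
    exact_mod_cast this
  have h12 : 12 * k * y ≤ L := by
    have h1 : (k : ℝ) * y ≤ (u / 14) * (u * l) := mul_le_mul k1 y1 hy0.le (by positivity)
    have h2 : (12 : ℝ) * k * y ≤ L := by
      rw [hL]
      have h3 : (u / 14) * (u * l) = (u ^ 2 * l) / 14 := by ring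
      have h4 : 0 ≤ u ^ 2 * l := by positivity
      linarith
    exact_mod_cast h2
  have h4y : 12 * y ^ 2 ≤ 4 ^ y := lin_le_four_pow (by omega)
  obtain ⟨hkc, hgr⟩ := good_ge (by omega) hk0 (by omega) h4y h12
  have hMk : (Nat.count Nat.Prime (4 ^ y) - k) + k ≤ Nat.count Nat.Prime (4 ^ y) := by omega
  have hyE := yE (K := ((k + 1 : ℕ) : ℝ)) (R := ((PP y).card : ℝ)) hyN' hky1 (Nat.cast_nonneg _) hRy
  obtain ⟨T, hT1, hT2⟩ := pigeon (y := y) (k := k) (L := L) (m0 := 2 ^ y) hMk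
    (3 * 4 ^ y * Real.exp (-(((k + 1 : ℕ) : ℝ) * (PP y).card / (14 * y)))) (by
    intro H hH hHk
    have h1 := sieve_bound hH hLy (by omega) (by omega) (by rw [hHk]; exact hKR)
    rw [hHk] at h1
    refine h1.trans ?_
    linarith)
  have hsmall := small_ineq hl hul hlogL1 hLexp yL k1 y2
  have hT3 : Real.exp (u / (400 * l)) ≤ T.card := by
    refine final_ineq hl hu hLexp yL hy0 k2 hR ?_
    have h3 : (4:ℝ) ^ y / (6 * y) = 4 ^ y / (12 * y) + 4 ^ y / (12 * y) := by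
      field_simp
      norm_num
    have h5 : ((2 ^ y : ℕ) : ℝ) * ((L : ℝ) + 1) ^ (k + 1) ≤ 4 ^ y / (12 * y) := by
      rw [le_div_iff₀ (by positivity)]
      exact hsmall
    linarith
  refine ⟨T, hT3, fun H hH => ?_⟩
  obtain ⟨h1, h2, h3, S, hS1, hS2⟩ := hT2 H hH
  have h2y : ∀ n : ℕ, 2 ≤ n → n + 2 ≤ 2 ^ n := by
    intro n hn
    induction n, hn using Nat.le_induction with
    | base => norm_num
    | succ n hn ih => rw [pow_succ]; omega
  refine ⟨h1, h2, by rw [h3, hk], ?_, S, ?_, hS2⟩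
  · have h4 : ∃ n ∈ S, H.card < n := by
      by_contra hc
      push Not at hc
      have h5 : S ⊆ range (H.card + 1) := fun n hn => mem_range.2 (by have := hc n hn; omega)
      have h6 := card_le_card h5
      rw [card_range, h3] at h6
      have := h2y y (by omega)
      omega
    obtain ⟨n, hn, hn2⟩ := h4
    exact admissible_of_realises (hS2 n hn).1 hn2
  · have h4 : ((2 ^ y : ℕ) : ℝ) ≤ S.card := by exact_mod_cast hS1
    refine le_trans ?_ h4
    push_cast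
    rw [two_pow_eq]
    refine Real.exp_le_exp.2 ?_
    have hlog2 := Real.log_two_gt_d9
    have h6 : (u * l - 1) * 0.69 ≤ y * Real.log 2 :=
      mul_le_mul y2.le (by linarith) (by norm_num) hy0.le
    linarith

end CP
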