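import Mathlib

/-!
# An upper bound for the number of translates of a set that consist of primes
-/

namespace CP
open Finset

/-- counting integers with forbidden residues -/
theorem crt_count (P : Finset ℕ) (hP : ∀ p ∈ P, p.Prime) (A : ℕ → Finset ℕ)
    (hA : ∀ p ∈ P, A p ⊆ range p) (q : ℕ) :
    ((range ((∏ p ∈ P, p) * q)).filter (fun n => ∀ p ∈ P, n % p ∉ A p)).card ≤
      q * ∏ p ∈ P, (p - (A p).card) := by
  classical
  set N := ∏ p ∈ P, p with hN
  have hN0 : 0 < N := Finset.prod_pos fun p hp => (hP p hp).pos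
  have h1 : ((range q) ×ˢ (P.pi fun p => range p \ A p)).card = q * ∏ p ∈ P, (p - (A p).card) := by
    rw [card_product, card_range, card_pi]
    congr 1
    refine prod_congr rfl fun p hp => ?_
    rw [card_sdiff_of_subset (hA p hp), card_range]
  rw [← h1]
  refine card_le_card_of_injOn (fun n => (n / N, fun p _ => n % p)) ?_ ?_
  · intro n hn
    rw [mem_coe, mem_filter, mem_range] at hn
    rw [mem_coe, mem_product]
    refine ⟨?_, ?_⟩
    · rw [mem_range]
      exact Nat.div_lt_of_lt_mul hn.1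
    · rw [mem_pi]
      intro p hp
      rw [mem_sdiff, mem_range]
      exact ⟨Nat.mod_lt _ (hP p hp).pos, hn.2 p hp⟩
  · intro n hn n' hn' h
    simp only [Prod.mk.injEq] at h
    obtain ⟨h2, h3⟩ := h
    have h4 : ∀ p ∈ P, n ≡ n' [MOD p] := by
      intro p hp
      have := congrFun (congrFun h3 p) hp
      exact this
    have h5 : n ≡ n' [MOD N] := by
      rw [Nat.modEq_iff_dvd, hN]
      push_cast
      have : ((∏ p ∈ P, (p : ℤ))) ∣ (n' : ℤ) - n := by
        refine Finset.prod_dvd_of_coprime (t := P) (s := fun p : ℕ => (p : ℤ)) ?_ ?_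
        · intro a ha b hb hab
          have := (Nat.coprime_primes (hP a ha) (hP b hb)).2 hab
          exact Nat.isCoprime_iff_coprime.2 this
        · intro p hp
          exact (Nat.modEq_iff_dvd.1 (h4 p hp))
      exact this
    have h6 : n % N = n' % N := h5
    rw [← Nat.div_add_mod n N, ← Nat.div_add_mod n' N, h2, h6]

/-- ordered pairs of distinct elements of `H` congruent modulo `p` -/
def coinc (H : Finset ℕ) (p : ℕ) : ℕ :=
  ((H ×ˢ H).filter (fun x => x.1 ≠ x.2 ∧ x.1 % p = x.2 % p)).card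

/-- number of residue classes modulo `p` met by `H` -/
def nu (H : Finset ℕ) (p : ℕ) : ℕ := (H.image (· % p)).card

theorem card_sq_le (H : Finset ℕ) (p : ℕ) : H.card ^ 2 ≤ nu H p * (H.card + coinc H p) := by
  classical
  have h1 : H.card = ∑ r ∈ H.image (· % p), (H.filter (fun h => h % p = r)).card :=
    card_eq_sum_card_image _ _
  have h2 : (∑ r ∈ H.image (· % p), (H.filter (fun h => h % p = r)).card) ^ 2 ≤
      nu H p * ∑ r ∈ H.image (· % p), (H.filter (fun h => h % p = r)).card ^ 2 :=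
    sq_sum_le_card_mul_sum_sq
  have h3 : ∑ r ∈ H.image (· % p), (H.filter (fun h => h % p = r)).card ^ 2 =
      ((H ×ˢ H).filter (fun x => x.1 % p = x.2 % p)).card := by
    rw [card_eq_sum_card_fiberwise (f := fun x : ℕ × ℕ => x.1 % p) (t := H.image (· % p))]
    · refine sum_congr rfl fun r hr => ?_
      rw [sq, ← card_product]
      congr 1
      ext ⟨a, b⟩
      simp only [mem_product, mem_filter]
      constructor
      · rintro ⟨⟨h1, h2⟩, h3, h4⟩
        exact ⟨⟨⟨h1, h3⟩, by rw [h2, h4]⟩, h2⟩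
      · rintro ⟨⟨⟨h1, h2⟩, h3⟩, h4⟩
        exact ⟨⟨h1, h4⟩, h2, by rw [← h3, h4]⟩
    · intro x hx
      rw [mem_coe, mem_filter, mem_product] at hx
      exact mem_image_of_mem _ hx.1.1
  have h4 : ((H ×ˢ H).filter (fun x => x.1 % p = x.2 % p)).card ≤ H.card + coinc H p := by
    have h5 : (H ×ˢ H).filter (fun x => x.1 % p = x.2 % p) ⊆
        (H.image fun h => (h, h)) ∪ (H ×ˢ H).filter (fun x => x.1 ≠ x.2 ∧ x.1 % p = x.2 % p) := by
      rintro ⟨a, b⟩ hx
      rw [mem_filter, mem_product] at hx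
      rw [mem_union, mem_filter, mem_product, mem_image]
      by_cases hab : a = b
      · left
        exact ⟨a, hx.1.1, by rw [hab]⟩
      · right
        exact ⟨hx.1, hab, hx.2⟩
    refine (card_le_card h5).trans ((card_union_le _ _).trans ?_)
    exact Nat.add_le_add_right card_image_le _
  calc H.card ^ 2 = (∑ r ∈ H.image (· % p), (H.filter (fun h => h % p = r)).card) ^ 2 := by rw [← h1]
    _ ≤ _ := h2
    _ ≤ _ := by rw [h3]; exact Nat.mul_le_mul_left _ h4

/-- the primes `p ≤ y` with `p² > y` -/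
def PP (y : ℕ) : Finset ℕ := (range (y + 1)).filter (fun p => p.Prime ∧ y < p ^ 2)

theorem few_divisors {y d : ℕ} (hd : 0 < d) (hdy : d ≤ y ^ 2) (hy : 1 < y) :
    ((PP y).filter (fun p => p ∣ d)).card ≤ 3 := by
  set S := (PP y).filter (fun p => p ∣ d) with hS
  have h1 : ∀ p ∈ S, p.Prime ∧ y < p ^ 2 ∧ p ∣ d := by
    intro p hp
    rw [hS, mem_filter, PP, mem_filter] at hp
    exact ⟨hp.1.2.1, hp.1.2.2, hp.2⟩
  have h2 : (∏ p ∈ S, p) ∣ d :=
    Finset.prod_primes_dvd d (fun p hp => (h1 p hp).1.prime) (fun p hp => (h1 p hp).2.2)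
  have h3 : y ^ S.card ≤ ∏ p ∈ S, p ^ 2 := by
    rw [← prod_const]
    exact prod_le_prod' fun p hp => (h1 p hp).2.1.le
  by_contra hc
  rw [not_le] at hc
  have h4 : ∏ p ∈ S, p ^ 2 ≤ d ^ 2 := by
    rw [prod_pow]
    exact Nat.pow_le_pow_left (Nat.le_of_dvd hd h2) 2
  have h5 : S.Nonempty := card_pos.1 (by omega)
  have h3' : y ^ S.card < ∏ p ∈ S, p ^ 2 := by
    rw [← prod_const]
    refine prod_lt_prod_of_nonempty (fun p _ => by omega) (fun p hp => (h1 p hp).2.1) h5
  have h6 : d ^ 2 ≤ y ^ 4 := by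
    calc d ^ 2 ≤ (y ^ 2) ^ 2 := Nat.pow_le_pow_left hdy 2
      _ = y ^ 4 := by ring
  have h7 : y ^ 4 ≤ y ^ S.card := Nat.pow_le_pow_right (by omega) (by omega)
  omega

theorem sum_coinc {y L : ℕ} {H : Finset ℕ} (hH : ∀ h ∈ H, h ≤ L) (hL : L ≤ y ^ 2) (hy : 1 < y) :
    ∑ p ∈ PP y, coinc H p ≤ 3 * H.card ^ 2 := by
  classical
  have h1 : ∀ p ∈ PP y, coinc H p = ∑ x ∈ H ×ˢ H, if x.1 ≠ x.2 ∧ x.1 % p = x.2 % p then 1 else 0 := by
    intro p _
    rw [coinc, card_filter]
  rw [sum_congr rfl h1, sum_comm]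
  have h2 : ∀ x ∈ H ×ˢ H, (∑ p ∈ PP y, if x.1 ≠ x.2 ∧ x.1 % p = x.2 % p then 1 else 0) ≤ 3 := by
    rintro ⟨a, b⟩ hx
    rw [mem_product] at hx
    rw [← card_filter]
    by_cases hab : a = b
    · have : (PP y).filter (fun p => a ≠ b ∧ a % p = b % p) = ∅ := by
        rw [filter_eq_empty_iff]
        intro p _ h
        exact h.1 hab
      simp [this]
    · wlog hlt : a < b generalizing a b
      · have := this b a hx.symm (fun h => hab h.symm) (by omega)
        refine le_trans (le_of_eq ?_) this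
        congr 1
        refine filter_congr fun p _ => ?_
        simp only [ne_eq]
        constructor
        · rintro ⟨h1, h2⟩; exact ⟨fun h => h1 h.symm, h2.symm⟩
        · rintro ⟨h1, h2⟩; exact ⟨fun h => h1 h.symm, h2.symm⟩
      · refine le_trans (card_le_card ?_) (few_divisors (y := y) (d := b - a) (by omega) ?_ hy)
        · intro p hp
          rw [mem_filter] at hp ⊢
          refine ⟨hp.1, ?_⟩
          have h3 : a ≡ b [MOD p] := hp.2.2
          exact (Nat.modEq_iff_dvd' hlt.le).1 h3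
        · have := hH b hx.2
          omega
  refine (sum_le_sum h2).trans ?_
  rw [sum_const, card_product, smul_eq_mul]
  nlinarith

/-- residues `r` modulo `p` with `r + h ≡ 0` for some `h ∈ H` -/
def forb (H : Finset ℕ) (p : ℕ) : Finset ℕ := (H.image (· % p)).image (fun r => (p - r) % p)

theorem forb_sub (H : Finset ℕ) {p : ℕ} (hp : 0 < p) : forb H p ⊆ range p := by
  intro r hr
  rw [forb, mem_image] at hr
  obtain ⟨s, _, rfl⟩ := hr
  exact mem_range.2 (Nat.mod_lt _ hp)

theorem forb_card (H : Finset ℕ) {p : ℕ} (hp : 0 < p) : (forb H p).card = nu H p := by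
  rw [forb, nu]
  refine card_image_of_injOn ?_
  intro a ha b hb hab
  rw [mem_coe, mem_image] at ha hb
  have h1 : a < p := by
    obtain ⟨a', _, rfl⟩ := ha
    exact Nat.mod_lt a' hp
  have h2 : b < p := by
    obtain ⟨b', _, rfl⟩ := hb
    exact Nat.mod_lt b' hp
  simp only at hab
  rcases Nat.eq_zero_or_pos a with h3 | h3 <;> rcases Nat.eq_zero_or_pos b with h4 | h4
  · rw [h3, h4]
  · rw [h3, Nat.sub_zero, Nat.mod_self, Nat.mod_eq_of_lt (by omega)] at hab
    omega
  · rw [h4, Nat.sub_zero, Nat.mod_self, Nat.mod_eq_of_lt (by omega)] at hab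
    omega
  · rw [Nat.mod_eq_of_lt (by omega), Nat.mod_eq_of_lt (by omega)] at hab
    omega

theorem not_mem_forb {H : Finset ℕ} {p n y : ℕ} (hp : p.Prime) (hpy : p ≤ y) (hn : y < n)
    (h : ∀ h ∈ H, (n + h).Prime) : n % p ∉ forb H p := by
  intro hm
  rw [forb, mem_image] at hm
  obtain ⟨r, hr, hrn⟩ := hm
  rw [mem_image] at hr
  obtain ⟨x, hx, rfl⟩ := hr
  have h1 : p ∣ n + x := by
    have h2 := Nat.mod_lt x hp.pos
    rw [Nat.dvd_iff_mod_eq_zero, Nat.add_mod, ← hrn, Nat.mod_add_mod]
    rw [Nat.sub_add_cancel h2.le, Nat.mod_self]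
  have h2 := (Nat.prime_dvd_prime_iff_eq hp (h x hx)).1 h1
  omega

theorem sieve_bound {y L : ℕ} {H : Finset ℕ} (hH : ∀ h ∈ H, h ≤ L) (hL : L ≤ y ^ 2) (hy : 1 < y)
    (hK0 : 0 < H.card) (hK : H.card ≤ (PP y).card) :
    (((range (4 ^ y)).filter (fun n => ∀ h ∈ H, (n + h).Prime)).card : ℝ) ≤
      y + 1 + 2 * 4 ^ y * Real.exp (-((H.card : ℝ) * (PP y).card / (14 * y))) := by
  classical
  set K := H.card with hKdef
  set R := (PP y).card with hRdef
  set P' := (PP y).filter (fun p => coinc H p ≤ 6 * K) with hP'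
  have hprime : ∀ p ∈ P', p.Prime ∧ p ≤ y := by
    intro p hp
    rw [hP', mem_filter, PP, mem_filter, mem_range] at hp
    exact ⟨hp.1.2.1, by omega⟩
  -- many good primes
  have hcard : R ≤ 2 * P'.card := by
    set Q := (PP y).filter (fun p => ¬ coinc H p ≤ 6 * K) with hQ
    have h1 : P'.card + Q.card = R := card_filter_add_card_filter_not _
    have h2 : Q.card * (6 * K) ≤ 3 * K ^ 2 := by
      calc Q.card * (6 * K) = ∑ p ∈ Q, 6 * K := by rw [sum_const, smul_eq_mul]
        _ ≤ ∑ p ∈ Q, coinc H p := by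
            refine sum_le_sum fun p hp => ?_
            rw [hQ, mem_filter] at hp
            omega
        _ ≤ ∑ p ∈ PP y, coinc H p := sum_le_sum_of_subset (filter_subset _ _)
        _ ≤ 3 * K ^ 2 := sum_coinc hH hL hy
    have h3 : 2 * Q.card ≤ K := by
      by_contra hc
      rw [not_le] at hc
      nlinarith
    omega
  have hnu : ∀ p ∈ P', K ≤ 7 * nu H p := by
    intro p hp
    have h1 := card_sq_le H p
    have h2 : coinc H p ≤ 6 * K := by
      rw [hP', mem_filter] at hp
      exact hp.2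
    have h3 : K ^ 2 ≤ nu H p * (7 * K) := h1.trans (Nat.mul_le_mul_left _ (by omega))
    by_contra hc
    rw [not_le] at hc
    nlinarith
  set W := ∏ p ∈ P', p with hW
  have hW0 : 0 < W := prod_pos fun p hp => (hprime p hp).1.pos
  have hW4 : W ≤ 4 ^ y := by
    refine le_trans ?_ (primorial_le_four_pow y)
    rw [hW, primorial]
    refine prod_le_prod_of_subset_of_one_le' ?_ ?_
    · intro p hp
      rw [mem_filter, mem_range]
      exact ⟨by have := (hprime p hp).2; omega, (hprime p hp).1⟩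
    · intro p hp _
      rw [mem_filter] at hp
      exact hp.2.pos
  set q := 4 ^ y / W + 1 with hq
  have hWq : 4 ^ y < W * q := by
    rw [hq]
    exact Nat.lt_mul_div_succ _ hW0
  have hqr : (q : ℝ) ≤ 2 * (4 ^ y / W) := by
    have h1 : ((4 ^ y / W : ℕ) : ℝ) ≤ (4 ^ y : ℝ) / W := by
      have := Nat.cast_div_le (α := ℝ) (m := 4 ^ y) (n := W)
      push_cast at this
      exact this
    have h2 : (1 : ℝ) ≤ (4 ^ y : ℝ) / W := by
      rw [one_le_div (by exact_mod_cast hW0)]
      exact_mod_cast hW4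
    rw [hq]
    push_cast
    linarith
  -- counting
  have hcount : ((range (4 ^ y)).filter (fun n => ∀ h ∈ H, (n + h).Prime)).card ≤
      (y + 1) + q * ∏ p ∈ P', (p - nu H p) := by
    have h1 : (range (4 ^ y)).filter (fun n => ∀ h ∈ H, (n + h).Prime) ⊆
        range (y + 1) ∪ (range (W * q)).filter (fun n => ∀ p ∈ P', n % p ∉ forb H p) := by
      intro n hn
      rw [mem_filter, mem_range] at hn
      rw [mem_union, mem_range, mem_filter, mem_range]
      by_cases hny : n < y + 1
      · exact Or.inl hny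
      · right
        refine ⟨by omega, fun p hp => ?_⟩
        exact not_mem_forb (hprime p hp).1 (hprime p hp).2 (by omega) hn.2
    refine (card_le_card h1).trans ((card_union_le _ _).trans ?_)
    rw [card_range]
    refine Nat.add_le_add_left ?_ _
    have h2 := crt_count P' (fun p hp => (hprime p hp).1) (forb H)
      (fun p hp => forb_sub H (hprime p hp).1.pos) q
    refine h2.trans (le_of_eq ?_)
    congr 1
    exact prod_congr rfl fun p hp => by rw [forb_card H (hprime p hp).1.pos]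
  have hy0 : (0 : ℝ) < y := by exact_mod_cast (by omega : 0 < y)
  have hprod : ((∏ p ∈ P', (p - nu H p) : ℕ) : ℝ) ≤
      W * Real.exp (-((K : ℝ) * R / (14 * y))) := by
    have h1 : ∀ p ∈ P', ((p - nu H p : ℕ) : ℝ) ≤ p * Real.exp (-((K : ℝ) / (7 * y))) := by
      intro p hp
      have hp0 : (0 : ℝ) < p := by exact_mod_cast (hprime p hp).1.pos
      have h2 : nu H p ≤ p := by
        rw [← forb_card H (hprime p hp).1.pos]
        calc (forb H p).card ≤ (range p).card := card_le_card (forb_sub H (hprime p hp).1.pos)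
          _ = p := card_range p
      have h3 : (K : ℝ) ≤ 7 * nu H p := by exact_mod_cast hnu p hp
      have h4 : (p : ℝ) ≤ y := by exact_mod_cast (hprime p hp).2
      rw [Nat.cast_sub h2]
      have h5 : -((K : ℝ) / (7 * y)) + 1 ≤ Real.exp (-((K : ℝ) / (7 * y))) := Real.add_one_le_exp _
      have h6 : (p : ℝ) - nu H p ≤ p * (-((K : ℝ) / (7 * y)) + 1) := by
        have h7 : (p : ℝ) * ((K : ℝ) / (7 * y)) ≤ nu H p := by
          rw [mul_div_assoc', div_le_iff₀ (by positivity)]
          have hK' : (0:ℝ) ≤ K := by positivity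
          nlinarith [mul_le_mul h4 h3 hK' hy0.le]
        linarith
      exact h6.trans (mul_le_mul_of_nonneg_left h5 hp0.le)
    push_cast
    calc (∏ p ∈ P', ((p - nu H p : ℕ) : ℝ)) ≤ ∏ p ∈ P', ((p : ℝ) * Real.exp (-((K : ℝ) / (7 * y)))) :=
          prod_le_prod (fun p _ => by positivity) h1
      _ = W * Real.exp (-((K : ℝ) / (7 * y))) ^ P'.card := by
          rw [prod_mul_distrib, prod_const, hW]
          push_cast
          rfl
      _ ≤ W * Real.exp (-((K : ℝ) * R / (14 * y))) := by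
          refine mul_le_mul_of_nonneg_left ?_ (by positivity)
          rw [← Real.exp_nat_mul]
          refine Real.exp_le_exp.2 ?_
          have h8 : (R : ℝ) ≤ 2 * P'.card := by exact_mod_cast hcard
          have h9 : (K : ℝ) * R / (14 * y) ≤ P'.card * ((K : ℝ) / (7 * y)) := by
            rw [mul_div_assoc', div_le_div_iff₀ (by positivity) (by positivity)]
            have hK' : (0:ℝ) ≤ K := by positivity
            nlinarith [mul_le_mul_of_nonneg_left h8 (mul_nonneg hK' hy0.le)]
          linarith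
  calc (((range (4 ^ y)).filter (fun n => ∀ h ∈ H, (n + h).Prime)).card : ℝ)
      ≤ ((y + 1) + q * ∏ p ∈ P', (p - nu H p) : ℕ) := by exact_mod_cast hcount
    _ = (y : ℝ) + 1 + q * ((∏ p ∈ P', (p - nu H p) : ℕ) : ℝ) := by push_cast; ring
    _ ≤ (y : ℝ) + 1 + (2 * (4 ^ y / W)) * (W * Real.exp (-((K : ℝ) * R / (14 * y)))) := by
        have hW0' : (0:ℝ) < W := by exact_mod_cast hW0
        have := mul_le_mul hqr hprod (by positivity) (by positivity)
        linarith
    _ = (y : ℝ) + 1 + 2 * 4 ^ y * Real.exp (-((K : ℝ) * R / (14 * y))) := by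
        have hW0' : (W : ℝ) ≠ 0 := by exact_mod_cast hW0.ne'
        field_simp

end CP
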