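import Pool.Agent.Helper7.CP.Sieve

/-!
# Patterns of consecutive primes
-/

namespace CP
open Finset

/-- `n` realises `H` as consecutive primes -/
def Realises (n : ℕ) (H : Finset ℕ) : Prop :=
  (∀ h ∈ H, (n + h).Prime) ∧ ∀ m : ℕ, (n + m).Prime → (∃ h ∈ H, m ≤ h) → m ∈ H

/-- the `i`-th prime -/
noncomputable def pr (i : ℕ) : ℕ := Nat.nth Nat.Prime i

theorem pr_prime (i : ℕ) : (pr i).Prime := Nat.prime_nth_prime i

theorem pr_strictMono : StrictMono pr := Nat.nth_strictMono Nat.infinite_setOfPred_prime

theorem pr_lt_of_lt_count {i x : ℕ} (h : i < Nat.count Nat.Prime x) : pr i < x :=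
  Nat.nth_lt_of_lt_count h

/-- the pattern of the `k+1` consecutive primes starting with the `m`-th one -/
noncomputable def pat (m k : ℕ) : Finset ℕ := (range (k + 1)).image (fun i => pr (m + i) - pr m)

theorem pat_card (m k : ℕ) : (pat m k).card = k + 1 := by
  rw [pat, card_image_of_injOn, card_range]
  intro i _ j _ hij
  simp only at hij
  have h1 : pr m ≤ pr (m + i) := pr_strictMono.monotone (by omega)
  have h2 : pr m ≤ pr (m + j) := pr_strictMono.monotone (by omega)
  have h3 : pr (m + i) = pr (m + j) := by omega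
  have := pr_strictMono.injective h3
  omega

theorem zero_mem_pat (m k : ℕ) : 0 ∈ pat m k := by
  rw [pat, mem_image]
  exact ⟨0, by simp, by simp⟩

theorem pat_le {m k L : ℕ} (hL : pr (m + k) - pr m ≤ L) : ∀ h ∈ pat m k, h ≤ L := by
  intro h hh
  rw [pat, mem_image] at hh
  obtain ⟨i, hi, rfl⟩ := hh
  rw [mem_range] at hi
  have : pr (m + i) ≤ pr (m + k) := pr_strictMono.monotone (by omega)
  omega

theorem realises_pat (m k : ℕ) : Realises (pr m) (pat m k) := by
  constructor
  · intro h hh
    rw [pat, mem_image] at hh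
    obtain ⟨i, _, rfl⟩ := hh
    have : pr m ≤ pr (m + i) := pr_strictMono.monotone (by omega)
    rw [Nat.add_sub_cancel' this]
    exact pr_prime _
  · rintro j hj ⟨h, hh, hjh⟩
    rw [pat, mem_image] at hh
    obtain ⟨i, hi, rfl⟩ := hh
    rw [mem_range] at hi
    have h0 : pr m ≤ pr (m + i) := pr_strictMono.monotone (by omega)
    have h1 : pr (Nat.count Nat.Prime (pr m + j)) = pr m + j := Nat.nth_count hj
    set t := Nat.count Nat.Prime (pr m + j) with ht
    have h2 : m ≤ t := by
      rw [← pr_strictMono.le_iff_le, h1]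
      omega
    have h3 : t ≤ m + i := by
      rw [← pr_strictMono.le_iff_le, h1]
      omega
    rw [pat, mem_image]
    refine ⟨t - m, by rw [mem_range]; omega, ?_⟩
    rw [Nat.add_sub_cancel' h2, h1]
    omega

/-- telescoping -/
theorem sum_gap_le {M k x : ℕ} (h : M + k ≤ Nat.count Nat.Prime x) :
    ∑ m ∈ range M, (pr (m + k) - pr m) ≤ k * x := by
  have h1 : ∀ m, pr (m + k) - pr m = ∑ i ∈ range k, (pr (m + (i + 1)) - pr (m + i)) := by
    intro m
    have := Finset.sum_range_tsub (f := fun i => pr (m + i)) (fun a b hab => pr_strictMono.monotone (by omega)) k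
    simpa using this.symm
  rw [sum_congr rfl fun m _ => h1 m, sum_comm]
  have h2 : ∀ i ∈ range k, ∑ m ∈ range M, (pr (m + (i + 1)) - pr (m + i)) ≤ x := by
    intro i hi
    rw [mem_range] at hi
    have := Finset.sum_range_tsub (f := fun m => pr (m + i)) (fun a b hab => pr_strictMono.monotone (by omega)) M
    have h3 : ∑ m ∈ range M, (pr (m + (i + 1)) - pr (m + i)) = pr (M + i) - pr (0 + i) := by
      rw [← this]
      refine sum_congr rfl fun m _ => ?_
      congr 2
      omega
    rw [h3]
    have h4 : pr (M + i) < x := pr_lt_of_lt_count (by omega)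
    omega
  calc ∑ i ∈ range k, ∑ m ∈ range M, (pr (m + (i + 1)) - pr (m + i)) ≤ ∑ i ∈ range k, x := sum_le_sum h2
    _ = k * x := by rw [sum_const, card_range, smul_eq_mul]

/-- indices of the good windows -/
noncomputable def good (M k L : ℕ) : Finset ℕ := (range M).filter (fun m => pr (m + k) - pr m ≤ L)

theorem good_card {M k x L : ℕ} (h : M + k ≤ Nat.count Nat.Prime x) :
    (M - (good M k L).card) * L ≤ k * x := by
  classical
  have h1 : (good M k L).card + ((range M).filter (fun m => ¬ pr (m + k) - pr m ≤ L)).card = M := by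
    rw [good, card_filter_add_card_filter_not, card_range]
  have h2 : M - (good M k L).card = ((range M).filter (fun m => ¬ pr (m + k) - pr m ≤ L)).card := by
    omega
  rw [h2]
  calc _ = ∑ m ∈ (range M).filter (fun m => ¬ pr (m + k) - pr m ≤ L), L := by
        rw [sum_const, smul_eq_mul]
    _ ≤ ∑ m ∈ (range M).filter (fun m => ¬ pr (m + k) - pr m ≤ L), (pr (m + k) - pr m) := by
        refine sum_le_sum fun m hm => ?_
        rw [mem_filter] at hm
        omega
    _ ≤ ∑ m ∈ range M, (pr (m + k) - pr m) := sum_le_sum_of_subset (filter_subset _ _)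
    _ ≤ k * x := sum_gap_le h

/-- a realised pattern with large translates is admissible -/
theorem admissible_of_realises {n : ℕ} {H : Finset ℕ} (h : ∀ x ∈ H, (n + x).Prime) (hn : H.card < n) :
    ∀ p : ℕ, p.Prime → ∃ r : ℕ, r < p ∧ ∀ h ∈ H, h % p ≠ r := by
  classical
  intro p hp
  by_contra hc
  push Not at hc
  have h1 : range p ⊆ H.image (· % p) := by
    intro r hr
    rw [mem_range] at hr
    obtain ⟨x, hx, hxr⟩ := hc r hr
    exact mem_image.2 ⟨x, hx, hxr⟩
  have h2 : p ≤ H.card := by
    calc p = (range p).card := (card_range p).symm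
      _ ≤ _ := card_le_card h1
      _ ≤ _ := card_image_le
  obtain ⟨x, hx, hxr⟩ := hc ((p - n % p) % p) (Nat.mod_lt _ hp.pos)
  have h3 : p ∣ n + x := by
    have h4 := Nat.mod_lt n hp.pos
    rw [Nat.dvd_iff_mod_eq_zero, Nat.add_mod, hxr, Nat.add_mod_mod, Nat.add_sub_cancel' h4.le,
      Nat.mod_self]
  have h4 := (Nat.prime_dvd_prime_iff_eq hp (h x hx)).1 h3
  omega

/-- the pigeonhole argument -/
theorem pigeon {y k L M m0 : ℕ} (hM : M + k ≤ Nat.count Nat.Prime (4 ^ y)) (B : ℝ)
    (hB : ∀ H : Finset ℕ, (∀ h ∈ H, h ≤ L) → H.card = k + 1 →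
      (((range (4 ^ y)).filter (fun n => ∀ h ∈ H, (n + h).Prime)).card : ℝ) ≤ B) :
    ∃ T : Finset (Finset ℕ), ((good M k L).card : ℝ) ≤ T.card * B + m0 * ((L : ℝ) + 1) ^ (k + 1) ∧
      ∀ H ∈ T, 0 ∈ H ∧ (∀ h ∈ H, h ≤ L) ∧ H.card = k + 1 ∧
        ∃ S : Finset ℕ, m0 ≤ S.card ∧ ∀ n ∈ S, Realises n H := by
  classical
  set G := good M k L with hG
  set F : ℕ → Finset ℕ := fun m => pat m k with hF
  have hGm : ∀ m ∈ G, m < M ∧ pr (m + k) - pr m ≤ L := by
    intro m hm
    rw [hG, good, mem_filter, mem_range] at hm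
    exact hm
  set T := (G.image F).filter (fun H => m0 ≤ (G.filter (fun m => F m = H)).card) with hT
  have hin : ∀ H ∈ G.image F, (∀ h ∈ H, h ≤ L) ∧ H.card = k + 1 ∧ 0 ∈ H := by
    intro H hH
    rw [mem_image] at hH
    obtain ⟨m, hm, rfl⟩ := hH
    exact ⟨pat_le (hGm m hm).2, pat_card m k, zero_mem_pat m k⟩
  refine ⟨T, ?_, ?_⟩
  · have h1 : G.card = ∑ H ∈ G.image F, (G.filter (fun m => F m = H)).card :=
      card_eq_sum_card_image _ _
    have h2 : ∀ H ∈ G.image F, ((G.filter (fun m => F m = H)).card : ℝ) ≤ B := by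
      intro H hH
      obtain ⟨h3, h4, _⟩ := hin H hH
      refine le_trans ?_ (hB H h3 h4)
      rw [Nat.cast_le]
      refine card_le_card_of_injOn pr ?_ (pr_strictMono.injective.injOn)
      intro m hm
      rw [mem_coe, mem_filter] at hm
      rw [mem_coe, mem_filter, mem_range]
      refine ⟨pr_lt_of_lt_count (by have := (hGm m hm.1).1; omega), ?_⟩
      rw [← hm.2]
      exact (realises_pat m k).1
    have h5 : (G.card : ℝ) = ∑ H ∈ G.image F, ((G.filter (fun m => F m = H)).card : ℝ) := by
      rw [h1]; push_cast; rfl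
    rw [h5, ← sum_filter_add_sum_filter_not (G.image F)
      (fun H => m0 ≤ (G.filter (fun m => F m = H)).card)]
    refine add_le_add ?_ ?_
    · calc _ ≤ ∑ H ∈ T, B := sum_le_sum fun H hH => h2 H (mem_filter.1 hH).1
        _ = T.card * B := by rw [sum_const, nsmul_eq_mul]
    · calc _ ≤ ∑ H ∈ (G.image F).filter (fun H => ¬ m0 ≤ (G.filter (fun m => F m = H)).card), (m0 : ℝ) := by
            refine sum_le_sum fun H hH => ?_
            have := (mem_filter.1 hH).2
            rw [Nat.cast_le]
            omega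
        _ = ((G.image F).filter (fun H => ¬ m0 ≤ (G.filter (fun m => F m = H)).card)).card * (m0 : ℝ) := by
            rw [sum_const, nsmul_eq_mul]
        _ ≤ ((L : ℝ) + 1) ^ (k + 1) * m0 := by
            refine mul_le_mul_of_nonneg_right ?_ (by positivity)
            have h6 : (G.image F).filter (fun H => ¬ m0 ≤ (G.filter (fun m => F m = H)).card) ⊆
                powersetCard (k + 1) (range (L + 1)) := by
              intro H hH
              obtain ⟨h3, h4, _⟩ := hin H (mem_filter.1 hH).1
              rw [mem_powersetCard]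
              refine ⟨fun h hh => ?_, h4⟩
              rw [mem_range]
              have := h3 h hh
              omega
            have h7 := card_le_card h6
            rw [card_powersetCard, card_range] at h7
            have h8 : (L + 1).choose (k + 1) ≤ (L + 1) ^ (k + 1) := Nat.choose_le_pow _ _
            exact_mod_cast h7.trans h8
        _ = _ := by ring
  · intro H hH
    rw [hT, mem_filter] at hH
    obtain ⟨h1, h2⟩ := hH
    obtain ⟨h3, h4, h5⟩ := hin H h1
    refine ⟨h5, h3, h4, (G.filter (fun m => F m = H)).image pr, ?_, ?_⟩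
    · rwa [card_image_of_injective _ pr_strictMono.injective]
    · intro n hn
      rw [mem_image] at hn
      obtain ⟨m, hm, rfl⟩ := hn
      rw [mem_filter] at hm
      rw [← hm.2]
      exact realises_pat m k

end CP
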